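import Pool.Agent.Helper386.FF.Loc6
import Pool.Agent.SF.Model

/-! Degree of the divisor `DD g g'`; points; good parameters. -/

set_option autoImplicit false
set_option linter.all false
set_option linter.overlappingInstances false

open Module FF SF

namespace FFT

section T5
variable {Om M : Type} [Field Om] [Field M] [Algebra Om M] [CharZero Om] [IsFF Om M]

theorem DD_eq_md [IsAlgClosed Om] (g g' : M) (hg : g ≠ 0) (hg' : g' ≠ 0) :
    DD (Ω := Om) (M := M) g g' = md Om ![1, g, g * g'] := by
  have hgg : g * g' ≠ 0 := mul_ne_zero hg hg'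
  ext P
  have hmin : IsMin P ![1, g, g * g'] (min 0 (min (P.ord g) (P.ord (g * g')))) := by
    have h1 : P.ord (1 : M) = 0 := P.ord_one
    constructor
    · intro j
      right
      fin_cases j
      · change min 0 (min (P.ord g) (P.ord (g * g'))) ≤ P.ord 1
        rw [h1]; exact min_le_left _ _
      · exact (min_le_right _ _).trans (min_le_left _ _)
      · exact (min_le_right _ _).trans (min_le_right _ _)
    · rcases min_choice 0 (min (P.ord g) (P.ord (g * g'))) with h | h
      · refine ⟨0, one_ne_zero, ?_⟩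
        rw [h]; exact h1
      · rw [h]
        rcases min_choice (P.ord g) (P.ord (g * g')) with h2 | h2
        · exact ⟨1, hg, h2.symm⟩
        · exact ⟨2, hgg, h2.symm⟩
  rw [md_eq hmin]
  unfold DD
  rw [Finsupp.sup_apply, polar_apply, polar_apply]
  omega

theorem exists_rel (g1 g2 : M) : ∃ W : MvPolynomial (Fin 2) Om, W ≠ 0 ∧
    MvPolynomial.eval₂ (algebraMap Om M) ![g1, g2] W = 0 := by
  classical
  have hdep : ¬ AlgebraicIndependent Om ![g1, g2] := by
    intro h
    have h1 := h.lift_cardinalMk_le_trdeg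
    rw [‹IsFF Om M›.trdeg] at h1
    simp only [Cardinal.mk_fin, Cardinal.lift_natCast, Cardinal.lift_one] at h1
    have : (2 : ℕ) ≤ 1 := by exact_mod_cast h1
    omega
  rw [algebraicIndependent_iff] at hdep
  push Not at hdep
  obtain ⟨G, hG, hG0⟩ := hdep
  exact ⟨G, hG0, hG⟩

theorem ddeg_DD {k Om M : Type} [Field k] [CharZero k] [Field Om] [Field M] [Algebra k Om] [Algebra Om M]
    [IsAlgClosed Om] [CharZero Om] [FF.IsFF Om M]
    (g g' : M) (hg : g ≠ 0) (hg' : g' ≠ 0) : ∃ W : MvPolynomial (Fin 2) Om, W ≠ 0 ∧ ∀ p : Fin 2 → k,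
    MvPolynomial.eval (fun i => algebraMap k Om (p i)) W ≠ 0 → g * g' ≠ algebraMap Om M (algebraMap k Om (p 1)) →
    (Transcendental Om ((g - algebraMap Om M (algebraMap k Om (p 0))) / (g * g' - algebraMap Om M (algebraMap k Om (p 1)))) →
     ddeg (DD (Ω := Om) (M := M) g g') = finrank (IntermediateField.adjoin Om {(g - algebraMap Om M (algebraMap k Om (p 0))) / (g * g' - algebraMap Om M (algebraMap k Om (p 1)))}) M) ∧
    (¬ Transcendental Om ((g - algebraMap Om M (algebraMap k Om (p 0))) / (g * g' - algebraMap Om M (algebraMap k Om (p 1)))) →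
     ddeg (DD (Ω := Om) (M := M) g g') = 0) := by
  obtain ⟨W, hW0, hW⟩ := exists_rel (Om := Om) g (g * g')
  refine ⟨W, hW0, ?_⟩
  intro p hp hB
  rw [DD_eq_md g g' hg hg']
  have hVne : ∃ j, (![1, g, g * g'] : Fin 3 → M) j ≠ 0 := ⟨0, one_ne_zero⟩
  have e0 : (![1, g, g * g'] : Fin 3 → M) 0 = 1 := rfl
  have e1 : (![1, g, g * g'] : Fin 3 → M) 1 = g := rfl
  have e2 : (![1, g, g * g'] : Fin 3 → M) 2 = g * g' := rfl
  have h := ddeg_md_eq (k := Om) hVne (algebraMap k Om (p 0)) (algebraMap k Om (p 1)) (by
    intro P h0 hord hGa hGb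
    rw [e0] at hord
    rw [e0, e1, mul_one] at hGa
    rw [e0, e2, mul_one] at hGb
    rw [P.ord_one] at hord
    rw [← hord, zero_add] at hGa hGb
    have gen : ∀ (c : M) (q : Om), P.Ge 1 (c - algebraMap Om M q) → P.Reg c ∧ P.red c = algebraMap Om P.RF q := by
      intro c q hc
      have hr : P.Reg (c - algebraMap Om M q) := by
        rcases hc with h | h
        · exact Or.inl h
        · right; omega
      have hcr : P.Reg c := by
        have : c = (c - algebraMap Om M q) + algebraMap Om M q := by ring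
        rw [this]; exact P.reg_add hr (P.reg_const q)
      refine ⟨hcr, ?_⟩
      have h5 : P.red (c - algebraMap Om M q) = 0 := by
        rw [P.red_eq_zero_iff hr]
        rcases hc with h | h
        · exact Or.inl h
        · right; omega
      rw [P.red_sub hcr (P.reg_const q), sub_eq_zero] at h5
      exact h5
    obtain ⟨r1, v1⟩ := gen _ _ hGa
    obtain ⟨r2, v2⟩ := gen _ _ hGb
    have h6 := P.red_eval (c := ![g, g * g']) (by intro i; fin_cases i; exacts [r1, r2]) W
    rw [hW, P.red_zero] at h6
    apply eval₂_const_ne (κ := P.RF) hp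
    rw [eq_comm] at h6
    convert h6 using 2
    funext i
    fin_cases i
    · exact v1.symm
    · exact v2.symm) (by
    rintro ⟨-, h2⟩
    rw [e0, e2, mul_one, sub_eq_zero] at h2
    exact hB h2)
  rw [e0, e1, e2, mul_one, mul_one] at h
  constructor
  · intro ht
    rw [h, if_pos ht]
  · intro ht
    rw [h, if_neg ht]

end T5

/-- points over finite extensions (Zariski's lemma) -/
theorem exists_pt (E N : Type) [Field E] [Field N] [Algebra E N] (s : Finset N) :
    ∃ (E' : Type) (_ : Field E') (_ : Algebra E E'), FiniteDimensional E E' ∧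
      Nonempty (Algebra.adjoin E (s : Set N) →ₐ[E] E') := by
  classical
  let A := Algebra.adjoin E (s : Set N)
  have hft : Algebra.FiniteType E A := (Subalgebra.fg_iff_finiteType _).1 ⟨s, rfl⟩
  obtain ⟨m, hm⟩ := Ideal.exists_maximal A
  letI : Field (A ⧸ m) := Ideal.Quotient.field m
  have h1 : Algebra.FiniteType E (A ⧸ m) := Algebra.FiniteType.of_surjective (Ideal.Quotient.mkₐ E m)
    (Ideal.Quotient.mkₐ_surjective E m)
  have h2 : Module.Finite E (A ⧸ m) := finite_of_finite_type_of_isJacobsonRing E (A ⧸ m)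
  exact ⟨A ⧸ m, inferInstance, inferInstance, h2, ⟨Ideal.Quotient.mkₐ E m⟩⟩

/-- good parameters over the small field -/
theorem exists_good (k Om : Type) [Field k] [CharZero k] [Field Om] [Algebra k Om] (W : MvPolynomial (Fin 2) k)
    (W' : MvPolynomial (Fin 2) Om) (hW : W ≠ 0) (hW' : W' ≠ 0) :
    ∃ p : Fin 2 → k, MvPolynomial.eval p W ≠ 0 ∧ MvPolynomial.eval (fun i => algebraMap k Om (p i)) W' ≠ 0 := by
  classical
  let V : MvPolynomial (Fin 2) Om := MvPolynomial.map (algebraMap k Om) W * W'
  have hV : V ≠ 0 := mul_ne_zero (fun h => hW (MvPolynomial.map_injective _ (algebraMap k Om).injective (by rw [h, map_zero]))) hW'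
  by_contra hcon
  push Not at hcon
  apply hV
  have hinf : Infinite k := inferInstance
  refine MvPolynomial.funext_set (fun _ => Set.range (algebraMap k Om)) (fun _ => Set.infinite_range_of_injective (algebraMap k Om).injective) ?_
  intro x hx
  rw [map_zero]
  have hx' : ∀ i, ∃ q : k, algebraMap k Om q = x i := fun i => hx i (Set.mem_univ i)
  choose p hp using hx'
  have hpx : (fun i => algebraMap k Om (p i)) = x := funext hp
  change MvPolynomial.eval x (MvPolynomial.map (algebraMap k Om) W * W') = 0
  rw [map_mul]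
  by_cases h : MvPolynomial.eval p W = 0
  · have h1 : MvPolynomial.eval x (MvPolynomial.map (algebraMap k Om) W) = algebraMap k Om (MvPolynomial.eval p W) := by
      rw [← hpx, MvPolynomial.eval_map, MvPolynomial.eval₂_comp]
      rfl
    rw [h1, h, map_zero, zero_mul]
  · have h2 := hcon p h
    rw [hpx] at h2
    rw [h2, mul_zero]

end FFT

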